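import Pool.Agent.H379R3.CDQ.Stmts

/-! Averaging (task Avg of the project CDQ of helper379). -/

set_option autoImplicit false

namespace Pool.Agent.H322R3.CDQ

open Pool.Agent.H379R3.CDQ

lemma lc_sum {X M ι : Type} [TopologicalSpace X] [AddCommGroup M] (s : Finset ι)
    (F : ι → X → M) (h : ∀ i, IsLocallyConstant (F i)) :
    IsLocallyConstant (fun x => ∑ i ∈ s, F i x) := by
  classical
  induction s using Finset.induction_on with
  | empty =>
    simp only [Finset.sum_empty]
    exact IsLocallyConstant.const (0 : M)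
  | insert a s ha ih =>
    have : (fun x => ∑ i ∈ insert a s, F i x) = fun x => F a x + ∑ i ∈ s, F i x := by
      funext x
      rw [Finset.sum_insert ha]
    rw [this]
    exact (h a).comp₂ ih (· + ·)

lemma cocycle_cons {G M : Type} [AddCommGroup M] {n : ℕ} (f : (Fin (n + 1) → G) → M)
    (hf : ∀ v, dd f v = 0) (s : G) (w : Fin (n + 1) → G) :
    f w = ∑ i : Fin (n + 1), (-1 : ℤ) ^ (i : ℕ) •
      f (Fin.cons s (fun j => w (i.succAbove j)) : Fin (n + 1) → G) := by
  have h := hf (Fin.cons s w : Fin (n + 1 + 1) → G)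
  unfold dd at h
  rw [Fin.sum_univ_succ] at h
  have h0 : (fun j : Fin (n + 1) => (Fin.cons s w : Fin (n + 1 + 1) → G) ((0 : Fin (n + 2)).succAbove j))
      = w := by
    funext j
    simp
  have h1 : ∀ i : Fin (n + 1), (fun j : Fin (n + 1) =>
      (Fin.cons s w : Fin (n + 1 + 1) → G) (i.succ.succAbove j)) =
      (Fin.cons s (fun j => w (i.succAbove j)) : Fin (n + 1) → G) := by
    intro i
    funext j
    refine Fin.cases ?_ (fun j => ?_) j
    · simp
    · simp
  rw [h0] at h
  simp only [h1] at h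
  simp only [Fin.val_zero, pow_zero, one_smul, Fin.val_succ, pow_succ, mul_neg, mul_one, neg_smul,
    Finset.sum_neg_distrib] at h
  rw [← sub_eq_add_neg, sub_eq_zero] at h
  exact h

theorem taskAvg : TaskAvg := by
  intro hPer G _ _ _ _ M _ _ _hM hE n hn f hflc hfe hfc
  obtain ⟨n, rfl⟩ : ∃ m, n = m + 1 := ⟨n - 1, by omega⟩
  obtain ⟨U, hU, hUf⟩ := hPer G M (n + 1) f hflc
  obtain ⟨e, he1, he2, he3⟩ := hE U hU
  haveI : Finite (G ⧸ U) := Subgroup.quotient_finite_of_isOpen U hU
  haveI : Fintype (G ⧸ U) := Fintype.ofFinite _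
  have he3' : ∀ m, ∑ s : G ⧸ U, e s.out m = m := by
    intro m
    rw [← finsum_eq_sum_of_fintype]
    exact he3 m
  refine ⟨fun v => ∑ s : G ⧸ U, e s.out (f (Fin.cons s.out v : Fin (n + 1 + 1) → G)), ?_, ?_, ?_⟩
  · refine lc_sum Finset.univ (fun (s : G ⧸ U) (v : Fin (n + 1) → G) =>
      e s.out (f (Fin.cons s.out v : Fin (n + 1 + 1) → G))) ?_
    intro s
    have hc : Continuous (fun v : Fin (n + 1) → G => (Fin.cons s.out v : Fin (n + 1 + 1) → G)) := by
      refine continuous_pi fun j => ?_
      refine Fin.cases ?_ (fun j => ?_) j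
      · simpa using continuous_const
      · simpa using continuous_apply j
    exact (hflc.comp_continuous hc).comp (fun m => e s.out m)
  · intro g v
    set F : G → M := fun t => e t (f (Fin.cons t v : Fin (n + 1 + 1) → G)) with hF
    have hFU : ∀ t, ∀ u ∈ U, F (t * u) = F t := by
      intro t u hu
      simp only [hF]
      rw [he1 t u hu, hUf u hu t v]
    have hFout : ∀ t : G, F ((QuotientGroup.mk t : G ⧸ U).out) = F t := by
      intro t
      obtain ⟨u, hu⟩ := QuotientGroup.mk_out_eq_mul U t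
      rw [hu]
      exact hFU t u u.2
    have h1 : ∀ s : G ⧸ U, e s.out (f (Fin.cons s.out (fun i => g * v i) : Fin (n + 1 + 1) → G)) =
        g • F (g⁻¹ * s.out) := by
      intro s
      have h2 : (Fin.cons s.out (fun i => g * v i) : Fin (n + 1 + 1) → G) =
          fun i => g * (Fin.cons (g⁻¹ * s.out) v : Fin (n + 1 + 1) → G) i := by
        funext i
        refine Fin.cases ?_ (fun i => ?_) i
        · simp
        · simp
      rw [h2, hfe]
      simp only [hF]
      rw [← he2 g (g⁻¹ * s.out), mul_inv_cancel_left]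
    have h3 : ∀ s : G ⧸ U, F (g⁻¹ * s.out) = F ((g⁻¹ • s).out) := by
      intro s
      rw [← hFout (g⁻¹ * s.out)]
      congr 2
      conv_rhs => rw [← QuotientGroup.out_eq' s]
      rfl
    change ∑ s : G ⧸ U, e s.out (f (Fin.cons s.out (fun i => g * v i) : Fin (n + 1 + 1) → G)) =
      g • ∑ s : G ⧸ U, e s.out (f (Fin.cons s.out v : Fin (n + 1 + 1) → G))
    rw [Finset.smul_sum]
    simp only [h1]
    calc ∑ s : G ⧸ U, g • F (g⁻¹ * s.out) = ∑ s : G ⧸ U, g • F ((g⁻¹ • s).out) := by
          refine Finset.sum_congr rfl fun s _ => ?_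
          rw [h3]
      _ = ∑ s : G ⧸ U, g • F (s.out) :=
          Equiv.sum_comp (MulAction.toPerm g⁻¹ : Equiv.Perm (G ⧸ U)) (fun s => g • F (s.out))
      _ = _ := rfl
  · intro w
    unfold dd
    calc f w = ∑ s : G ⧸ U, e s.out (f w) := (he3' _).symm
      _ = ∑ s : G ⧸ U, ∑ i : Fin (n + 1 + 1), (-1 : ℤ) ^ (i : ℕ) •
            e s.out (f (Fin.cons s.out (fun j => w (i.succAbove j)) : Fin (n + 1 + 1) → G)) := by
          refine Finset.sum_congr rfl fun s _ => ?_
          conv_lhs => rw [cocycle_cons f hfc s.out w]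
          rw [map_sum]
          refine Finset.sum_congr rfl fun i _ => ?_
          rw [map_zsmul]
      _ = _ := by
          rw [Finset.sum_comm]
          refine Finset.sum_congr rfl fun i _ => ?_
          rw [Finset.smul_sum]

end Pool.Agent.H322R3.CDQ
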